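import Mathlib

/-!
# Least integer whose Euler totient equals `n!`: the values of `a(n)` from the admissible primes
-/

set_option autoImplicit false

open Nat

namespace Pool.Agent.Results.MP_238075_nt.Reduction

/-- `p` is admissible for `n` -/
def Adm (n p : ℕ) : Prop :=
  p.Prime ∧ n ! < p ^ 2 ∧ (p - 1) ∣ n ! ∧ (n ! / (p - 1) + 1).Prime

lemma totient_prime_mul_le {m p : ℕ} (hp : p.Prime) (hm : 0 < m) (h : p ∣ m) :
    p * φ m ≤ (p - 1) * m := by
  obtain ⟨k, s, hs, rfl⟩ := Nat.exists_eq_pow_mul_and_not_dvd hm.ne' p hp.ne_one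
  have hk : k ≠ 0 := by
    rintro rfl
    exact hs (by simpa using h)
  obtain ⟨j, rfl⟩ := Nat.exists_eq_succ_of_ne_zero hk
  have hc : Nat.Coprime (p ^ (j + 1)) s :=
    Nat.Coprime.pow_left _ ((Nat.Prime.coprime_iff_not_dvd hp).2 hs)
  rw [Nat.succ_eq_add_one, Nat.totient_mul hc, Nat.totient_prime_pow_succ hp]
  calc p * (p ^ j * (p - 1) * φ s) = (p - 1) * (p ^ (j + 1) * φ s) := by ring
    _ ≤ (p - 1) * (p ^ (j + 1) * s) := by
        gcongr
        exact Nat.totient_le s

lemma fact_big {n : ℕ} (hn : 8 ≤ n) : 27 * (n - 1) ^ 3 ≤ n ! := by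
  induction n, hn using Nat.le_induction with
  | base => decide
  | succ n hn ih =>
    rw [Nat.factorial_succ]
    obtain ⟨k, rfl⟩ : ∃ k, n = k + 8 := ⟨n - 8, by omega⟩
    have e1 : k + 8 + 1 - 1 = k + 8 := by omega
    have e2 : k + 8 - 1 = k + 7 := by omega
    rw [e1]
    rw [e2] at ih
    nlinarith [Nat.zero_le (k ^ 3), Nat.zero_le (k ^ 2), Nat.zero_le (k ^ 4), Nat.zero_le k,
      Nat.mul_le_mul_left (k + 8 + 1) ih]

lemma amgm (x y z : ℕ) : 27 * (x * y * z) ^ 2 ≤ ((x + 1) * (y + 1) * (z + 1) - x * y * z) ^ 3 := by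
  have h1 : x * y + y * z + z * x ≤ (x + 1) * (y + 1) * (z + 1) - x * y * z := by
    apply Nat.le_sub_of_add_le
    nlinarith [Nat.zero_le x, Nat.zero_le y, Nat.zero_le z]
  refine le_trans ?_ (Nat.pow_le_pow_left h1 3)
  have h2 : ∀ a b c : ℕ, 27 * (a * b * c) ≤ (a + b + c) ^ 3 := by
    intro a b c
    have h : (27 * ((a : ℤ) * b * c)) ≤ ((a : ℤ) + b + c) ^ 3 := by
      have ha : (0 : ℤ) ≤ a := Int.natCast_nonneg a
      have hb : (0 : ℤ) ≤ b := Int.natCast_nonneg b
      have hc : (0 : ℤ) ≤ c := Int.natCast_nonneg c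
      nlinarith [mul_nonneg ha (sq_nonneg ((b : ℤ) - c)), mul_nonneg hb (sq_nonneg ((a : ℤ) - c)),
        mul_nonneg hc (sq_nonneg ((a : ℤ) - b)),
        mul_nonneg (add_nonneg (add_nonneg ha hb) hc) (sq_nonneg ((a : ℤ) - b)),
        mul_nonneg (add_nonneg (add_nonneg ha hb) hc) (sq_nonneg ((b : ℤ) - c)),
        mul_nonneg (add_nonneg (add_nonneg ha hb) hc) (sq_nonneg ((a : ℤ) - c))]
    exact_mod_cast h
  calc 27 * (x * y * z) ^ 2 = 27 * ((x * y) * (y * z) * (z * x)) := by ring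
    _ ≤ (x * y + y * z + z * x) ^ 3 := h2 _ _ _

lemma classify {n m : ℕ} (hn : 8 ≤ n) (hm : φ m = n !) :
    (m.Prime ∧ m = n ! + 1) ∨ (∃ p, Adm n p ∧ m = p * (n ! / (p - 1) + 1)) ∨
      27 * (n !) ^ 2 ≤ (m - n !) ^ 3 := by
  have hN : 1 < n ! := by
    have := fact_big hn
    have : 27 * 7 ^ 3 ≤ 27 * (n - 1) ^ 3 := by
      gcongr
      omega
    omega
  have hm0 : 0 < m := by
    rcases Nat.eq_zero_or_pos m with h | h
    · rw [h, Nat.totient_zero] at hm
      omega
    · exact h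
  have hm1 : m ≠ 1 := by
    rintro rfl
    rw [Nat.totient_one] at hm
    omega
  by_cases hsq : Squarefree m
  · obtain ⟨m1, h1⟩ : m.minFac ∣ m := Nat.minFac_dvd m
    have hp := Nat.minFac_prime hm1
    set p := m.minFac with hpdef
    have hc1 : Nat.Coprime p m1 := Nat.coprime_of_squarefree_mul (h1 ▸ hsq)
    have hm10 : 0 < m1 := by
      rcases Nat.eq_zero_or_pos m1 with h | h
      · rw [h] at h1
        omega
      · exact h
    by_cases hm11 : m1 = 1
    · left
      rw [hm11, mul_one] at h1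
      rw [h1, Nat.totient_prime hp] at hm
      have := hp.two_le
      exact ⟨h1 ▸ hp, by omega⟩
    · right
      have hsq1 : Squarefree m1 := Squarefree.of_mul_right (h1 ▸ hsq)
      obtain ⟨m2, h2⟩ : m1.minFac ∣ m1 := Nat.minFac_dvd m1
      have hq := Nat.minFac_prime hm11
      set q := m1.minFac with hqdef
      have hc2 : Nat.Coprime q m2 := Nat.coprime_of_squarefree_mul (h2 ▸ hsq1)
      have hm20 : 0 < m2 := by
        rcases Nat.eq_zero_or_pos m2 with h | h
        · rw [h] at h2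
          omega
        · exact h
      have e : (p - 1) * ((q - 1) * φ m2) = n ! := by
        rw [← hm, h1, Nat.totient_mul hc1, Nat.totient_prime hp, h2, Nat.totient_mul hc2,
          Nat.totient_prime hq]
      have hpq : p ≠ q := by
        intro h
        rw [h2, ← h] at hc1
        have := Nat.Coprime.coprime_mul_right_right hc1
        rw [Nat.coprime_self] at this
        exact hp.ne_one this
      by_cases hm21 : m2 = 1
      · left
        have key : ∀ p q : ℕ, p.Prime → q.Prime → q < p → (p - 1) * (q - 1) = n ! →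
            Adm n p ∧ p * q = p * (n ! / (p - 1) + 1) := by
          intro p q hp hq hlt h
          have h0 : 0 < p - 1 := by have := hp.two_le; omega
          have hd : n ! / (p - 1) + 1 = q := by
            rw [← h, Nat.mul_div_cancel_left _ h0]
            have := hq.two_le
            omega
          refine ⟨⟨hp, ?_, ⟨q - 1, h.symm⟩, by rw [hd]; exact hq⟩, by rw [hd]⟩
          rw [← h]
          have h3 : p - 1 < p := by omega
          have h4 : q - 1 < p := by omega
          nlinarith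
        rw [hm21, Nat.totient_one, mul_one] at e
        rw [h1, h2, hm21, mul_one]
        rcases lt_or_gt_of_ne hpq with h | h
        · obtain ⟨h3, h4⟩ := key q p hq hp h (by rw [← e]; ring)
          exact ⟨q, h3, by rw [← h4]; ring⟩
        · obtain ⟨h3, h4⟩ := key p q hp hq h e
          exact ⟨p, h3, h4⟩
      · right
        have h5 : φ m2 < m2 := Nat.totient_lt m2 (by omega)
        have h6 := amgm (p - 1) (q - 1) (φ m2)
        have h7 : (p - 1 + 1) * (q - 1 + 1) * (φ m2 + 1) ≤ m := by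
          rw [h1, h2, Nat.sub_add_cancel hp.one_lt.le, Nat.sub_add_cancel hq.one_lt.le, mul_assoc]
          gcongr
          exact h5
        rw [mul_assoc (p - 1), e] at h6
        exact h6.trans (Nat.pow_le_pow_left (Nat.sub_le_sub_right h7 _) 3)
  · right
    right
    rw [Nat.squarefree_iff_prime_squarefree] at hsq
    push Not at hsq
    obtain ⟨p, hp, hpp⟩ := hsq
    have hpn : p ≤ n := by
      rw [← hp.dvd_factorial, ← hm]
      obtain ⟨c, rfl⟩ := hpp
      exact (Nat.dvd_trans (by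
        rw [show p * p = p ^ (1 + 1) by ring, Nat.totient_prime_pow_succ hp]
        exact ⟨p - 1, by ring⟩) (Nat.totient_dvd_of_dvd ⟨c, rfl⟩))
    have h1 := totient_prime_mul_le hp hm0 (Dvd.dvd.trans ⟨p, rfl⟩ hpp)
    rw [hm] at h1
    have h2 : n ! ≤ m := by
      rw [← hm]
      exact Nat.totient_le m
    have h3 : n ! ≤ (n - 1) * (m - n !) := by
      have h4 : n ! ≤ (p - 1) * (m - n !) := by
        rw [Nat.mul_sub]
        apply Nat.le_sub_of_add_le
        have h5 := Nat.sub_add_cancel hp.one_lt.le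
        calc n ! + (p - 1) * n ! = (p - 1 + 1) * n ! := by ring
          _ = p * n ! := by rw [h5]
          _ ≤ _ := h1
      refine h4.trans (Nat.mul_le_mul_right _ ?_)
      omega
    have h6 := fact_big hn
    have h7 : (n !) ^ 3 ≤ (n - 1) ^ 3 * (m - n !) ^ 3 := by
      rw [← mul_pow]
      exact Nat.pow_le_pow_left h3 3
    have h8 : 27 * (n - 1) ^ 3 * (n !) ^ 2 ≤ (n - 1) ^ 3 * (m - n !) ^ 3 := by
      refine le_trans ?_ h7
      calc 27 * (n - 1) ^ 3 * (n !) ^ 2 ≤ n ! * (n !) ^ 2 := Nat.mul_le_mul_right _ h6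
        _ = (n !) ^ 3 := by ring
    have h9 : 0 < (n - 1) ^ 3 := by
      have : 0 < n - 1 := by omega
      positivity
    apply Nat.le_of_mul_le_mul_left _ h9
    calc (n - 1) ^ 3 * (27 * n ! ^ 2) = 27 * (n - 1) ^ 3 * (n !) ^ 2 := by ring
      _ ≤ _ := h8

lemma not_sq {n x : ℕ} (hn : 8 ≤ n) : x * x ≠ n ! := by
  intro h
  obtain ⟨r, hr, h1, h2⟩ := Nat.exists_prime_lt_and_le_two_mul (n / 2) (by omega)
  have : Fact r.Prime := ⟨hr⟩
  have hrn : r ≤ n := by omega
  have hlog : Nat.log r n < 2 := by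
    apply Nat.log_lt_of_lt_pow (by omega)
    nlinarith [show n < 2 * r by omega, show 4 < r by omega]
  have hv := padicValNat_factorial hlog
  rw [show Finset.Ico 1 2 = {1} from rfl, Finset.sum_singleton, pow_one] at hv
  have hd : n / r = 1 := by
    rw [Nat.div_eq_iff hr.pos]
    omega
  rw [hd, ← h] at hv
  have hx : x ≠ 0 := by
    rintro rfl
    exact (Nat.factorial_ne_zero n) (by rw [← h])
  rw [padicValNat.mul hx hx] at hv
  omega

lemma mono {N x x' y y' : ℕ} (h : x * y = N) (h' : x' * y' = N) (hx : 0 < x) (hxx : x ≤ x')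
    (hN : N < (x + 1) ^ 2) : x + y ≤ x' + y' := by
  rcases hxx.eq_or_lt with h1 | h1
  · subst h1
    have : y = y' := Nat.eq_of_mul_eq_mul_left hx (h.trans h'.symm)
    rw [this]
  · have h2 : y' ≤ x := by
      by_contra hc
      push Not at hc
      have h3 : (x + 1) * (x + 1) ≤ x' * y' := Nat.mul_le_mul h1 hc
      rw [h'] at h3
      nlinarith
    have h4 : (x : ℤ) * (x + y) ≤ x * (x' + y') := by
      have e : (x : ℤ) * y = x' * y' := by exact_mod_cast h.trans h'.symm
      have h5 : (0 : ℤ) ≤ ((x' : ℤ) - x) * (x - y') := by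
        apply mul_nonneg
        · have : (x : ℤ) < x' := by exact_mod_cast h1
          linarith
        · have : (y' : ℤ) ≤ x := by exact_mod_cast h2
          linarith
      nlinarith
    have h6 : x * (x + y) ≤ x * (x' + y') := by exact_mod_cast h4
    exact Nat.le_of_mul_le_mul_left h6 hx

lemma val {n p : ℕ} (h : Adm n p) :
    p * (n ! / (p - 1) + 1) = n ! + (p + n ! / (p - 1)) := by
  obtain ⟨hp, -, hd, -⟩ := h
  have h1 := Nat.mul_div_cancel' hd
  have h2 := Nat.sub_add_cancel hp.one_lt.le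
  calc p * (n ! / (p - 1) + 1) = (p - 1 + 1) * (n ! / (p - 1)) + p := by rw [h2]; ring
    _ = (p - 1) * (n ! / (p - 1)) + (p + n ! / (p - 1)) := by ring
    _ = _ := by rw [h1]

theorem result : ∀ n : ℕ, 8 ≤ n →
    (∀ m : ℕ, φ m = n ! → (m.Prime ∧ m = n ! + 1) ∨
      (∃ p, Adm n p ∧ m = p * (n ! / (p - 1) + 1)) ∨ 27 * (n !) ^ 2 ≤ (m - n !) ^ 3) ∧
    (¬ (n ! + 1).Prime → (∃ p, Adm n p ∧ (p + n ! / (p - 1)) ^ 3 < 27 * (n !) ^ 2) →
      ∃ p, IsLeast {p | Adm n p} p ∧ IsLeast {m | φ m = n !} (p * (n ! / (p - 1) + 1))) := by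
  classical
  intro n hn
  refine ⟨fun m hm => classify hn hm, fun hc => ?_⟩
  rintro ⟨p0, hp0, hlt⟩
  have hex : ∃ p, Adm n p := ⟨p0, hp0⟩
  obtain ⟨p1, hf, hmin⟩ : ∃ p1, Adm n p1 ∧ ∀ p, Adm n p → p1 ≤ p :=
    ⟨Nat.find hex, Nat.find_spec hex, fun p hp => Nat.find_min' hex hp⟩
  have hmon : ∀ p, Adm n p → p1 + n ! / (p1 - 1) ≤ p + n ! / (p - 1) := by
    intro p hp
    have h1 := Nat.sub_add_cancel hf.1.one_lt.le
    have h2 := Nat.sub_add_cancel hp.1.one_lt.le
    have h3 := mono (Nat.mul_div_cancel' hf.2.2.1) (Nat.mul_div_cancel' hp.2.2.1)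
      (Nat.sub_pos_of_lt hf.1.one_lt) (Nat.sub_le_sub_right (hmin p hp) 1)
      (by rw [h1]; exact hf.2.1)
    omega
  refine ⟨p1, ⟨hf, fun p hp => hmin p hp⟩, ?_, ?_⟩
  · have hd := Nat.mul_div_cancel' hf.2.2.1
    have hne : p1 ≠ n ! / (p1 - 1) + 1 := by
      intro h
      have h4 : p1 - 1 = n ! / (p1 - 1) := Nat.sub_eq_of_eq_add h
      exact not_sq hn (x := p1 - 1) (by
        calc (p1 - 1) * (p1 - 1) = (p1 - 1) * (n ! / (p1 - 1)) := by rw [← h4]
          _ = n ! := hd)
    change φ (p1 * (n ! / (p1 - 1) + 1)) = (n !)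
    rw [Nat.totient_mul ((Nat.coprime_primes hf.1 hf.2.2.2).2 hne), Nat.totient_prime hf.1,
      Nat.totient_prime hf.2.2.2, Nat.add_sub_cancel, hd]
  · intro m hm
    rw [val hf]
    rcases classify hn hm with ⟨h1, h2⟩ | ⟨p, hp, rfl⟩ | h
    · exact absurd (h2 ▸ h1) hc
    · rw [val hp]
      exact Nat.add_le_add_left (hmon p hp) _
    · have h5 : p0 + n ! / (p0 - 1) ≤ m - n ! := by
        by_contra hc'
        push Not at hc'
        have := Nat.pow_lt_pow_left hc' (n := 3) (by norm_num)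
        omega
      have h6 := (hmon p0 hp0).trans h5
      have h7 : 0 < p1 + n ! / (p1 - 1) := Nat.add_pos_left hf.1.pos _
      generalize p1 + n ! / (p1 - 1) = B at h6 h7 ⊢
      omega

end Pool.Agent.Results.MP_238075_nt.Reduction
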